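import Pool.Agent.TH28.FL.Dat

/-!
# Projections for the grading by the eigenspaces of `ad w`
-/

set_option autoImplicit false

universe u v

namespace Pool.Agent.TH293.Sem

open Module Pool.Agent.TH28.FL

variable {K : Type u} {L : Type v} [Field K] [LieRing L] [LieAlgebra K L]

/-- the projections of the grading -/
structure Gr (K : Type u) {L : Type v} [Field K] [LieRing L] [LieAlgebra K L] (w : L) where
  P : ℤ → L →ₗ[K] L
  mem : ∀ j x, P j x ∈ dg K w j
  same : ∀ j, ∀ x ∈ dg K w j, P j x = x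
  diff : ∀ i j, i ≠ j → ∀ x ∈ dg K w i, P j x = 0
  N : ℤ
  bot : ∀ j, N < |j| → ∀ x ∈ dg K w j, x = 0
  sum : ∀ x, x = ∑ j ∈ Finset.Icc (-N) N, P j x

theorem exists_gr [CharZero K] [FiniteDimensional K L] {w : L} (h : ⨆ j : ℤ, dg K w j = ⊤) :
    Nonempty (Gr K w) := by
  classical
  have hind : iSupIndep (fun j : ℤ => dg K w j) := by
    have h1 := (LieAlgebra.ad K L w).eigenspaces_iSupIndep
    have h2 := h1.comp (f := fun j : ℤ => (j : K)) Int.cast_injective
    have h3 : (fun j : ℤ => dg K w j) =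
        (LieAlgebra.ad K L w).eigenspace ∘ (fun j : ℤ => (j : K)) := by
      funext j
      ext x
      rw [Function.comp_apply, Module.End.mem_eigenspace_iff, mem_dg]
      rfl
    rw [h3]; exact h2
  have hint := DirectSum.isInternal_submodule_of_iSupIndep_of_iSup_eq_top hind h
  let _dec := hint.chooseDecomposition
  have hfin : {j | dg K w j ≠ ⊥}.Finite := WellFoundedGT.finite_ne_bot_of_iSupIndep hind
  -- bound
  obtain ⟨N, hN⟩ : ∃ N : ℤ, ∀ j, N < |j| → ∀ x ∈ dg K w j, x = 0 := by
    obtain ⟨N, hN⟩ := (hfin.image (fun j : ℤ => |j|)).bddAbove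
    refine ⟨N, fun j hj x hx => ?_⟩
    by_contra hx0
    have h1 : dg K w j ≠ ⊥ := by
      intro hb
      rw [hb, Submodule.mem_bot] at hx
      exact hx0 hx
    have h2 : |j| ≤ N := hN (Set.mem_image_of_mem (fun j : ℤ => |j|) h1)
    omega
  set P : ℤ → L →ₗ[K] L := fun j => (dg K w j).subtype ∘ₗ (DirectSum.component K ℤ _ j) ∘ₗ
    (DirectSum.decomposeLinearEquiv (dg K w)).toLinearMap with hP
  have hPap : ∀ j x, P j x = ((DirectSum.decompose (dg K w) x) j : L) := fun j x => rfl
  have same : ∀ j, ∀ x ∈ dg K w j, P j x = x := by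
    intro j x hx
    rw [hPap, DirectSum.decompose_of_mem_same _ hx]
  have diff : ∀ i j, i ≠ j → ∀ x ∈ dg K w i, P j x = 0 := by
    intro i j hij x hx
    rw [hPap, DirectSum.decompose_of_mem_ne _ hx hij]
  refine ⟨⟨P, ?_, same, diff, N, hN, ?_⟩⟩
  · intro j x
    rw [hPap]
    exact Submodule.coe_mem _
  · intro x
    have hx : x ∈ ⨆ j : ℤ, dg K w j := by rw [h]; trivial
    refine Submodule.iSup_induction (fun j : ℤ => dg K w j)
      (motive := fun x => x = ∑ j ∈ Finset.Icc (-N) N, P j x) hx ?_ ?_ ?_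
    · intro i y hy
      by_cases hi : |i| ≤ N
      · rw [abs_le] at hi
        rw [Finset.sum_eq_single_of_mem i (Finset.mem_Icc.mpr hi)]
        · exact (same i y hy).symm
        · intro j _ hj
          exact diff i j (Ne.symm hj) y hy
      · push Not at hi
        rw [hN i hi y hy]
        simp
    · simp
    · intro y z hy hz
      nth_rewrite 1 [hy, hz]
      rw [← Finset.sum_add_distrib]
      exact Finset.sum_congr rfl fun j _ => by rw [map_add]

namespace Gr

variable {w : L} (g : Gr K w)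

theorem ext {x y : L} (h : ∀ j, g.P j x = g.P j y) : x = y := by
  rw [g.sum x, g.sum y]
  exact Finset.sum_congr rfl fun j _ => h j

theorem P_P (i j : ℤ) (x : L) : g.P j (g.P i x) = if i = j then g.P j x else 0 := by
  by_cases h : i = j
  · subst h
    rw [if_pos rfl]
    exact g.same _ _ (g.mem _ _)
  · rw [if_neg h]
    exact g.diff i j h _ (g.mem _ _)

include g in
/-- two linear maps that agree on the homogeneous elements -/
theorem map_ext {V : Type*} [AddCommGroup V] [Module K V] {f f' : L →ₗ[K] V}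
    (h : ∀ i, ∀ x ∈ dg K w i, f x = f' x) (x : L) : f x = f' x := by
  rw [g.sum x, map_sum, map_sum]
  exact Finset.sum_congr rfl fun j _ => h j _ (g.mem j x)

theorem lie_mem_dg {i j : ℤ} {x y : L} (hx : x ∈ dg K w i) (hy : y ∈ dg K w j) :
    ⁅x, y⁆ ∈ dg K w (i + j) := by
  rw [mem_dg] at hx hy ⊢
  rw [leibniz_lie, hx, hy, smul_lie, lie_smul, ← add_smul]
  push_cast
  rfl

theorem P_lie {i : ℤ} (j : ℤ) {a : L} (ha : a ∈ dg K w i) (x : L) :
    g.P (i + j) ⁅a, x⁆ = ⁅a, g.P j x⁆ := by
  have := g.map_ext (f := g.P (i + j) ∘ₗ (LieAlgebra.ad K L a))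
    (f' := (LieAlgebra.ad K L a) ∘ₗ g.P j) ?_ x
  · exact this
  · intro k y hy
    show g.P (i + j) ⁅a, y⁆ = ⁅a, g.P j y⁆
    by_cases hk : k = j
    · subst hk
      rw [g.same _ _ (lie_mem_dg ha hy), g.same _ _ hy]
    · rw [g.diff (i + k) (i + j) (by omega) _ (lie_mem_dg ha hy), g.diff k j hk _ hy, lie_zero]

theorem P_lie' (i j : ℤ) {a : L} (ha : a ∈ dg K w i) (x : L) :
    g.P j ⁅a, x⁆ = ⁅a, g.P (j - i) x⁆ := by
  have := g.P_lie (j - i) ha x
  rwa [show i + (j - i) = j by ring] at this

theorem P_lie0 (j : ℤ) {a : L} (ha : a ∈ dg K w 0) (x : L) :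
    g.P j ⁅a, x⁆ = ⁅a, g.P j x⁆ := by
  have := g.P_lie j ha x
  rwa [zero_add] at this

/-- the filtration -/
def F (q : ℤ) : Submodule K L where
  carrier := {x | ∀ j < q, g.P j x = 0}
  add_mem' := by
    intro x y hx hy j hj
    rw [map_add, hx j hj, hy j hj, add_zero]
  zero_mem' := by intro j _; rw [map_zero]
  smul_mem' := by
    intro c x hx j hj
    rw [map_smul, hx j hj, smul_zero]

theorem mem_F {q : ℤ} {x : L} : x ∈ g.F q ↔ ∀ j < q, g.P j x = 0 := Iff.rfl

theorem F_mono {p q : ℤ} (h : p ≤ q) : g.F q ≤ g.F p := fun _ hx j hj => hx j (by omega)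

theorem dg_le_F {j q : ℤ} (h : q ≤ j) {x : L} (hx : x ∈ dg K w j) : x ∈ g.F q := by
  intro i hi
  exact g.diff j i (by omega) x hx

theorem mem_F_succ {q : ℤ} {x : L} (h : x ∈ g.F q) (h0 : g.P q x = 0) : x ∈ g.F (q + 1) := by
  intro j hj
  rcases lt_or_eq_of_le (Int.lt_add_one_iff.mp hj) with h1 | h1
  · exact h j h1
  · rw [h1]; exact h0

theorem sub_mem_F {q : ℤ} {x : L} (h : x ∈ g.F q) : x - g.P q x ∈ g.F (q + 1) := by
  refine g.mem_F_succ (Submodule.sub_mem _ h (g.dg_le_F le_rfl (g.mem q x))) ?_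
  rw [map_sub, g.P_P, if_pos rfl, sub_self]

theorem F_low (x : L) : x ∈ g.F (-g.N) := by
  intro j hj
  exact g.bot j (by rw [lt_abs]; right; omega) _ (g.mem j x)

theorem F_high {q : ℤ} (hq : g.N < q) {x : L} (hx : x ∈ g.F q) : x = 0 := by
  apply g.ext
  intro j
  rw [map_zero]
  rcases lt_or_ge j q with h | h
  · exact hx j h
  · exact g.bot j (by rw [lt_abs]; left; omega) _ (g.mem j x)

/-- downward induction: an element that lies deeper and deeper in the filtration is zero -/
theorem eq_zero_of_F {x : L} {q : ℤ} (hx : x ∈ g.F q) (h : ∀ j, q ≤ j → x ∈ g.F j → g.P j x = 0) :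
    x = 0 := by
  have key : ∀ k : ℕ, x ∈ g.F (q + k) := by
    intro k
    induction k with
    | zero => simpa using hx
    | succ k ih =>
      have := g.mem_F_succ ih (h _ (by omega) ih)
      push_cast
      rwa [← add_assoc]
  have h1 := key (g.N - q + 1).toNat
  refine g.F_high (q := q + ((g.N - q + 1).toNat : ℤ)) ?_ h1
  have := Int.self_le_toNat (g.N - q + 1)
  omega

theorem mem_F_of {x : L} (h : ∀ j, j < 0 → x ∈ g.F j → g.P j x = 0) : x ∈ g.F 0 := by
  have key : ∀ k : ℕ, x ∈ g.F (min (-g.N + k) 0) := by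
    intro k
    induction k with
    | zero => exact g.F_mono (min_le_left _ _) (by simpa using g.F_low x)
    | succ k ih =>
      rcases le_or_gt 0 (-g.N + k) with h1 | h1
      · rw [min_eq_right h1] at ih
        rw [min_eq_right (by push_cast; omega)]
        exact ih
      · rw [min_eq_left h1.le] at ih
        have := g.mem_F_succ ih (h _ h1 ih)
        refine g.F_mono ?_ this
        push_cast
        have := min_le_left (-g.N + (k + 1)) 0
        omega
  have h1 := key g.N.toNat
  have h2 := Int.self_le_toNat g.N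
  rwa [min_eq_right (by omega)] at h1

theorem P_lie_sum (k : ℤ) (x y : L) :
    g.P k ⁅x, y⁆ = ∑ i ∈ Finset.Icc (-g.N) g.N, ⁅g.P i x, g.P (k - i) y⁆ := by
  nth_rewrite 1 [g.sum x]
  rw [_root_.sum_lie, map_sum]
  exact Finset.sum_congr rfl fun i _ => g.P_lie' i k (g.mem i x) y

theorem lie_F {p q : ℤ} {x y : L} (hx : x ∈ g.F p) (hy : y ∈ g.F q) : ⁅x, y⁆ ∈ g.F (p + q) := by
  intro k hk
  rw [g.P_lie_sum]
  refine Finset.sum_eq_zero fun i _ => ?_
  rcases lt_or_ge i p with h | h
  · rw [hx i h, zero_lie]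
  · rw [hy (k - i) (by omega), lie_zero]

theorem P_lie_lead {p q : ℤ} {x y : L} (hx : x ∈ g.F p) (hy : y ∈ g.F q) :
    g.P (p + q) ⁅x, y⁆ = ⁅g.P p x, g.P q y⁆ := by
  have h1 : x = g.P p x + (x - g.P p x) := by abel
  nth_rewrite 1 [h1]
  rw [add_lie, map_add, g.P_lie q (g.mem p x)]
  rw [(g.lie_F (g.sub_mem_F hx) hy) (p + q) (by omega), add_zero]

section killing

variable [CharZero K]

theorem killing_dg {i j : ℤ} (h : i + j ≠ 0) {x y : L} (hx : x ∈ dg K w i) (hy : y ∈ dg K w j) :
    killingForm K L x y = 0 := by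
  have h1 : killingForm K L ⁅w, x⁆ y = - killingForm K L x ⁅w, y⁆ :=
    LieModule.traceForm_apply_lie_apply' K L L w x y
  rw [mem_dg] at hx hy
  rw [hx, hy, map_smul, map_smul, LinearMap.smul_apply, smul_eq_mul, smul_eq_mul] at h1
  have h2 : ((i + j : ℤ) : K) * killingForm K L x y = 0 := by push_cast; linear_combination h1
  rcases mul_eq_zero.mp h2 with h3 | h3
  · exact absurd (by exact_mod_cast h3) h
  · exact h3

theorem killing_F {p q : ℤ} (h : 0 < p + q) {x y : L} (hx : x ∈ g.F p) (hy : y ∈ g.F q) :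
    killingForm K L x y = 0 := by
  rw [g.sum x, g.sum y, map_sum]
  refine Finset.sum_eq_zero fun j _ => ?_
  rw [map_sum, LinearMap.sum_apply]
  refine Finset.sum_eq_zero fun i _ => ?_
  rcases lt_or_ge i p with h1 | h1
  · rw [hx i h1]; simp
  rcases lt_or_ge j q with h2 | h2
  · rw [hy j h2]; simp
  exact killing_dg (by omega) (g.mem i x) (g.mem j y)

theorem killing_P (j : ℤ) (x y : L) :
    killingForm K L (g.P j x) y = killingForm K L x (g.P (-j) y) := by
  have h1 : killingForm K L (g.P j x) y = killingForm K L (g.P j x) (g.P (-j) y) := by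
    nth_rewrite 1 [g.sum y]
    rw [map_sum]
    by_cases hj : -j ∈ Finset.Icc (-g.N) g.N
    · rw [Finset.sum_eq_single_of_mem (-j) hj]
      intro i _ hi
      exact killing_dg (by omega) (g.mem j x) (g.mem i y)
    · rw [Finset.sum_eq_zero]
      · symm
        have : g.P (-j) y = 0 := by
          refine g.bot (-j) ?_ _ (g.mem _ _)
          by_contra hcon
          push Not at hcon
          exact hj (Finset.mem_Icc.mpr (abs_le.mp hcon))
        rw [this, map_zero]
      · intro i hi
        refine killing_dg ?_ (g.mem j x) (g.mem i y)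
        intro h0
        exact hj (by rwa [show -j = i by omega])
  have h2 : killingForm K L x (g.P (-j) y) = killingForm K L (g.P j x) (g.P (-j) y) := by
    nth_rewrite 1 [g.sum x]
    rw [map_sum, LinearMap.sum_apply]
    by_cases hj : j ∈ Finset.Icc (-g.N) g.N
    · rw [Finset.sum_eq_single_of_mem j hj]
      intro i _ hi
      exact killing_dg (by omega) (g.mem i x) (g.mem (-j) y)
    · rw [Finset.sum_eq_zero]
      · symm
        have : g.P j x = 0 := by
          refine g.bot j ?_ _ (g.mem _ _)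
          by_contra hcon
          push Not at hcon
          exact hj (Finset.mem_Icc.mpr (abs_le.mp hcon))
        rw [this, map_zero, LinearMap.zero_apply]
      · intro i hi
        refine killing_dg ?_ (g.mem i x) (g.mem (-j) y)
        intro h0
        exact hj (by rwa [show j = i by omega])
  rw [h1, h2]

/-- the orthogonal of `F 0` is `F 1` -/
theorem mem_F_one [FiniteDimensional K L] [LieAlgebra.IsKilling K L] {y : L}
    (h : ∀ a ∈ g.F 0, killingForm K L y a = 0) : y ∈ g.F 1 := by
  intro j hj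
  have hnd := LieAlgebra.IsKilling.killingForm_nondegenerate K L
  have h1 : ∀ b, killingForm K L (g.P j y) b = 0 := by
    intro b
    rw [g.killing_P]
    exact h _ (g.dg_le_F (show (0:ℤ) ≤ -j by omega) (g.mem _ _))
  exact hnd.1 _ h1

end killing

end Gr

end Pool.Agent.TH293.Sem
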