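import Pool.Agent.TH28.FL.Dat

/-!
# Linear algebra and Lie algebra lemmas for job 1781
-/

set_option autoImplicit false

universe u v

namespace Pool.Agent.TH293.Sem

open Module

section forms

variable {K : Type u} {V : Type v} [Field K] [AddCommGroup V] [Module K V] [FiniteDimensional K V]

theorem orth_inf_aux (B : LinearMap.BilinForm K V) (hB : B.Nondegenerate) (hr : B.IsRefl)
    (A C : Submodule K V) {v : V} (hv : ∀ b ∈ A ⊓ C, B v b = 0) :
    ∃ v1 v2, v = v1 + v2 ∧ (∀ a ∈ A, B v1 a = 0) ∧ ∀ c ∈ C, B v2 c = 0 := by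
  have h1 : B.orthogonal (B.orthogonal A ⊔ B.orthogonal C) ≤ A ⊓ C := by
    refine le_inf ?_ ?_
    · conv_rhs => rw [← LinearMap.BilinForm.orthogonal_orthogonal hB hr A]
      exact LinearMap.BilinForm.orthogonal_le le_sup_left
    · conv_rhs => rw [← LinearMap.BilinForm.orthogonal_orthogonal hB hr C]
      exact LinearMap.BilinForm.orthogonal_le le_sup_right
  have h2 : v ∈ B.orthogonal (B.orthogonal (B.orthogonal A ⊔ B.orthogonal C)) := by
    rw [LinearMap.BilinForm.mem_orthogonal_iff]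
    intro b hb
    exact hr _ _ (hv b (h1 hb))
  rw [LinearMap.BilinForm.orthogonal_orthogonal hB hr] at h2
  obtain ⟨v1, hv1, v2, hv2, rfl⟩ := Submodule.mem_sup.mp h2
  refine ⟨v1, v2, rfl, fun a ha => ?_, fun c hc => ?_⟩
  · exact hr _ _ (LinearMap.BilinForm.mem_orthogonal_iff.mp hv1 a ha)
  · exact hr _ _ (LinearMap.BilinForm.mem_orthogonal_iff.mp hv2 c hc)

variable (B : LinearMap.BilinForm K V) (hs : ∀ x y, B x y = B y x) (P : Submodule K V)
  (hP : ∀ y ∈ P, (∀ a ∈ P, B y a = 0) → y = 0)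

include hs hP

theorem restrict_nondeg : (B.restrict P).Nondegenerate ∧ (B.restrict P).IsRefl := by
  have hr : (B.restrict P).IsRefl := by
    intro x y h
    rw [LinearMap.BilinForm.restrict_apply] at h ⊢
    simp only [LinearMap.domRestrict_apply] at h ⊢
    rw [hs]; exact h
  refine ⟨⟨?_, ?_⟩, hr⟩
  · intro x hx
    apply Subtype.ext
    refine hP x x.2 fun a ha => ?_
    exact hx ⟨a, ha⟩
  · intro x hx
    apply Subtype.ext
    refine hP x x.2 fun a ha => ?_
    rw [hs]
    exact hx ⟨a, ha⟩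

theorem orth_inf {A C : Submodule K V} {v : V} (hv : v ∈ P)
    (h : ∀ b ∈ P, b ∈ A → b ∈ C → B v b = 0) :
    ∃ v1 ∈ P, ∃ v2 ∈ P, v = v1 + v2 ∧ (∀ a ∈ P, a ∈ A → B v1 a = 0) ∧
      ∀ c ∈ P, c ∈ C → B v2 c = 0 := by
  obtain ⟨h1, h2⟩ := restrict_nondeg B hs P hP
  obtain ⟨v1, v2, e, g1, g2⟩ := orth_inf_aux (B.restrict P) h1 h2 (A.comap P.subtype)
    (C.comap P.subtype) (v := ⟨v, hv⟩) (fun b hb => h b b.2 hb.1 hb.2)
  refine ⟨v1, v1.2, v2, v2.2, ?_, ?_, ?_⟩
  · have := congrArg Subtype.val e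
    exact this
  · intro a ha hA
    exact g1 ⟨a, ha⟩ hA
  · intro c hc hC
    exact g2 ⟨c, hc⟩ hC

theorem double_orth {A : Submodule K V} (hA : A ≤ P) {y : V} (hy : y ∈ P)
    (h : ∀ v ∈ P, (∀ a ∈ A, B v a = 0) → B v y = 0) : y ∈ A := by
  obtain ⟨h1, h2⟩ := restrict_nondeg B hs P hP
  have h3 : (⟨y, hy⟩ : P) ∈ (B.restrict P).orthogonal ((B.restrict P).orthogonal
      (A.comap P.subtype)) := by
    rw [LinearMap.BilinForm.mem_orthogonal_iff]
    intro v hv
    rw [LinearMap.BilinForm.mem_orthogonal_iff] at hv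
    refine h v v.2 fun a ha => ?_
    rw [hs]
    exact hv ⟨a, hA ha⟩ ha
  rw [LinearMap.BilinForm.orthogonal_orthogonal h1 h2] at h3
  exact h3

end forms

section pencil

variable {K : Type u} {E : Type v} [Field K] [AddCommGroup E] [Module K E] [FiniteDimensional K E]

/-- `f ^ D` of a pencil is a polynomial -/
theorem pencil_poly (V N : End K E) (D : ℕ) : ∀ (u : E) (φ : E →ₗ[K] K),
    ∃ P : Polynomial K, ∀ τ : K, P.eval τ = φ (((V + τ • N) ^ D) u) := by
  induction D with
  | zero => intro u φ; exact ⟨Polynomial.C (φ u), fun τ => by simp⟩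
  | succ D ih =>
    intro u φ
    obtain ⟨P1, h1⟩ := ih (V u) φ
    obtain ⟨P2, h2⟩ := ih (N u) φ
    refine ⟨P1 + Polynomial.X * P2, fun τ => ?_⟩
    rw [Polynomial.eval_add, Polynomial.eval_mul, Polynomial.eval_X, h1, h2, pow_succ,
      Module.End.mul_apply, LinearMap.add_apply, LinearMap.smul_apply, map_add, map_add, map_smul,
      map_smul, smul_eq_mul]

theorem nilp_const [Infinite K] (V N : End K E) (S : Set K) (hS : S.Finite)
    (h : ∀ τ, τ ∉ S → IsNilpotent (V + τ • N)) : IsNilpotent V := by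
  refine ⟨finrank K E, ?_⟩
  ext u
  rw [LinearMap.zero_apply, ← Module.forall_dual_apply_eq_zero_iff K]
  intro φ
  obtain ⟨P, hP⟩ := pencil_poly V N (finrank K E) u φ
  have h0 : P = 0 := by
    apply Polynomial.eq_zero_of_infinite_isRoot
    refine Set.Infinite.mono ?_ hS.infinite_compl
    intro τ hτ
    show P.eval τ = 0
    rw [hP]
    have h1 := h τ hτ
    have h2 : (V + τ • N) ^ (finrank K E) = 0 := by
      have h3 := LinearMap.aeval_self_charpoly (V + τ • N)
      have h4 : (V + τ • N).charpoly = Polynomial.X ^ finrank K E :=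
        ((LinearMap.charpoly_nilpotent_tfae (V + τ • N)).out 0 1).mp h1
      rw [h4] at h3
      simpa using h3
    rw [h2]; simp
  have := hP 0
  rw [h0] at this
  simpa using this.symm

/-- a pencil through an injective endomorphism is injective outside a finite set -/
theorem pencil_inj (A B : End K E) (hA : Function.Injective A) :
    ∃ S : Set K, S.Finite ∧ ∀ τ, τ ∉ S → ∀ c, (B + τ • A) c = 0 → c = 0 := by
  obtain ⟨A', hA'⟩ : ∃ A' : End K E, ∀ c, A' (A c) = c := by
    refine ⟨(LinearEquiv.ofInjectiveEndo A hA).symm.toLinearMap, fun c => ?_⟩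
    exact (LinearEquiv.ofInjectiveEndo A hA).symm_apply_apply c
  refine ⟨(fun μ => -μ) '' {μ | (A' * B).HasEigenvalue μ}, (Module.End.finite_hasEigenvalue _).image _, ?_⟩
  intro τ hτ c hc
  by_contra hne
  apply hτ
  refine ⟨-τ, ?_, neg_neg τ⟩
  refine Module.End.hasEigenvalue_of_hasEigenvector (x := c) ⟨?_, hne⟩
  rw [Module.End.mem_eigenspace_iff, Module.End.mul_apply]
  rw [LinearMap.add_apply, LinearMap.smul_apply] at hc
  have h1 : B c = -(τ • A c) := eq_neg_of_add_eq_zero_left hc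
  rw [h1, map_neg, map_smul, hA', neg_smul]

end pencil

section lie

variable {K : Type u} {L : Type v} [Field K] [LieRing L] [LieAlgebra K L] [FiniteDimensional K L]

theorem killing_symm (x y : L) : killingForm K L x y = killingForm K L y x :=
  LieModule.traceForm_comm K L L x y

theorem killing_inv (x y z : L) : killingForm K L ⁅x, y⁆ z = killingForm K L x ⁅y, z⁆ :=
  LieModule.traceForm_apply_lie_apply K L L x y z

/-- `κ (x, y) = 0` for commuting `x`, `y` with `ad x` nilpotent -/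
theorem killing_nil {x y : L} (h : ⁅x, y⁆ = 0) (hx : IsNilpotent (LieAlgebra.ad K L x)) :
    killingForm K L x y = 0 := by
  rw [killingForm_apply_apply]
  have hc : Commute (LieAlgebra.ad K L x) (LieAlgebra.ad K L y) := by
    ext v
    show ⁅x, ⁅y, v⁆⁆ = ⁅y, ⁅x, v⁆⁆
    rw [leibniz_lie, h, zero_lie, zero_add]
  exact (LinearMap.isNilpotent_trace_of_isNilpotent (hc.isNilpotent_mul_right hx)).eq_zero

theorem killing_polar [CharZero K] (ν : Submodule K L)
    (h : ∀ a ∈ ν, IsNilpotent (LieAlgebra.ad K L a)) {a b : L} (ha : a ∈ ν) (hb : b ∈ ν) :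
    killingForm K L a b = 0 := by
  have h1 : ∀ c ∈ ν, killingForm K L c c = 0 := fun c hc => killing_nil (lie_self c) (h c hc)
  have h2 := h1 (a + b) (ν.add_mem ha hb)
  rw [map_add, map_add, LinearMap.add_apply, LinearMap.add_apply, h1 a ha, h1 b hb,
    killing_symm b a] at h2
  have h3 : (2 : K) * killingForm K L a b = 0 := by linear_combination h2
  exact (mul_eq_zero.mp h3).resolve_left two_ne_zero

/-- Engel: a Lie algebra `ν` of ad-nilpotent elements is orthogonal to its normaliser -/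
theorem killing_engel (ν : LieSubalgebra K L)
    (h : ∀ a ∈ ν, IsNilpotent (LieAlgebra.ad K L a)) {y : L} (hy : ∀ a ∈ ν, ⁅y, a⁆ ∈ ν)
    {a : L} (ha : a ∈ ν) : killingForm K L a y = 0 := by
  have h1 : LieModule.IsNilpotent ν L := by
    rw [LieModule.isNilpotent_iff_forall (R := K)]
    intro x
    exact h x x.2
  obtain ⟨k, hk⟩ := (LieModule.isNilpotent_iff_exists_ucs_eq_top (R := K)).mp h1
  have hst : ∀ i : ℕ, ∀ v ∈ (⊥ : LieSubmodule K ν L).ucs i, ⁅y, v⁆ ∈ (⊥ : LieSubmodule K ν L).ucs i := by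
    intro i
    induction i with
    | zero =>
      intro v hv
      rw [LieSubmodule.ucs_zero, LieSubmodule.mem_bot] at hv ⊢
      rw [hv, lie_zero]
    | succ i ih =>
      intro v hv
      rw [LieSubmodule.ucs_succ, LieSubmodule.mem_normalizer] at hv ⊢
      intro b
      have e : ⁅b, ⁅y, v⁆⁆ = ⁅y, ⁅b, v⁆⁆ - ⁅(⟨⁅y, (b : L)⁆, hy b b.2⟩ : ν), v⁆ := by
        show ⁅(b : L), ⁅y, v⁆⁆ = ⁅y, ⁅(b : L), v⁆⁆ - ⁅⁅y, (b : L)⁆, v⁆
        rw [lie_lie]
        abel
      rw [e]
      exact Submodule.sub_mem _ (ih _ (hv b)) (hv _)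
  have hnil : ∀ i : ℕ, ∀ v ∈ (⊥ : LieSubmodule K ν L).ucs i,
      ((LieAlgebra.ad K L a * LieAlgebra.ad K L y) ^ i) v = 0 := by
    intro i
    induction i with
    | zero =>
      intro v hv
      rw [LieSubmodule.ucs_zero, LieSubmodule.mem_bot] at hv
      simp [hv]
    | succ i ih =>
      intro v hv
      rw [pow_succ, Module.End.mul_apply]
      apply ih
      have h2 := hst (i + 1) v hv
      rw [LieSubmodule.ucs_succ, LieSubmodule.mem_normalizer] at h2
      exact h2 ⟨a, ha⟩
  rw [killingForm_apply_apply]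
  have h2 : IsNilpotent (LieAlgebra.ad K L a * LieAlgebra.ad K L y) := by
    refine ⟨k, ?_⟩
    ext v
    rw [hnil k v (by rw [hk]; trivial)]
    rfl
  exact (LinearMap.isNilpotent_trace_of_isNilpotent h2).eq_zero

/-- a semisimple endomorphism with a power killing a vector kills the vector -/
theorem semisimple_pow {E : Type v} [AddCommGroup E] [Module K E] {f : End K E}
    (hf : f.IsSemisimple) [FiniteDimensional K E] {k : ℕ} {y : E} (h : (f ^ k) y = 0) : f y = 0 := by
  have h1 : y ∈ f.maxGenEigenspace 0 := by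
    rw [Module.End.mem_maxGenEigenspace]
    exact ⟨k, by simpa using h⟩
  rw [hf.isFinitelySemisimple.maxGenEigenspace_eq_eigenspace, Module.End.mem_eigenspace_iff] at h1
  simpa using h1

end lie

end Pool.Agent.TH293.Sem
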