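import Pool.Agent.TH293.Sem.Tr
import Pool.Agent.TH293.Sem.LA

/-!
# Job 1781: a generic element orthogonal to `[r, r]` is semisimple
-/

set_option autoImplicit false

universe u v

namespace Pool.Agent.TH293.Sem

open Module Pool.Agent.TH28.FL

variable {K : Type u} {L : Type v} [Field K] [LieRing L] [LieAlgebra K L]

/-- the derived algebra of the centraliser of `s` -/
def dl (K : Type u) {L : Type v} [Field K] [LieRing L] [LieAlgebra K L] (s : L) : Submodule K L :=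
  Submodule.span K {z : L | ∃ a b : L, ⁅s, a⁆ = 0 ∧ ⁅s, b⁆ = 0 ∧ z = ⁅a, b⁆}

/-- the derived algebra of `r` -/
def dr (r : LieSubalgebra K L) : Submodule K L :=
  Submodule.span K {z : L | ∃ a ∈ r, ∃ b ∈ r, z = ⁅a, b⁆}

/-- the centre of the centraliser of `s` -/
def Zc (s z : L) : Prop := ⁅s, z⁆ = 0 ∧ ∀ a : L, ⁅s, a⁆ = 0 → ⁅z, a⁆ = 0

/-- the data of the statement together with a grading -/
structure Ctx (r : LieSubalgebra K L) (x s n w : L) : Prop where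
  hx : x = s + n
  hsn : ⁅s, n⁆ = 0
  hn : IsNilpotent (LieAlgebra.ad K L n)
  hev : ∀ (y : L) (c : K), ⁅x, y⁆ = c • y → ⁅s, y⁆ = c • y
  H1 : ∀ a ∈ r, ∀ b ∈ r, killingForm K L x ⁅a, b⁆ = 0
  H2 : finrank K (LinearMap.range (LieAlgebra.ad K L x)) ≤
    2 * finrank K (r.toSubmodule.map (LieAlgebra.ad K L x))
  H3 : ∀ c : L, ⁅x, c⁆ = 0 → c ∈ dl K s → c ∈ dr r
  H4 : ∀ y : L, (∀ a ∈ r, ∀ b ∈ r, killingForm K L y ⁅a, b⁆ = 0) →
    finrank K (LieSubalgebra.engel K x) ≤ finrank K (LieSubalgebra.engel K y)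
  hw : dg K w 0 = LinearMap.ker (LieAlgebra.ad K L s)
  levi1 : ∀ y : L, ⁅s, y⁆ = 0 → (∀ a : L, ⁅s, a⁆ = 0 → killingForm K L y a = 0) → y = 0
  levi2 : ∀ y ∈ dl K s,
    (∀ a b : L, ⁅s, a⁆ = 0 → ⁅s, b⁆ = 0 → killingForm K L y ⁅a, b⁆ = 0) → y = 0
  levi3 : ∀ y : L, ⁅s, y⁆ = 0 → ∃ z : L, Zc s z ∧ y - z ∈ dl K s

theorem dr_le (r : LieSubalgebra K L) : dr r ≤ r.toSubmodule := by
  unfold dr
  rw [Submodule.span_le]
  rintro z ⟨a, ha, c, hc, rfl⟩
  exact r.lie_mem ha hc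

theorem lie_mem_dr {r : LieSubalgebra K L} {a b : L} (ha : a ∈ r) (hb : b ∈ r) : ⁅a, b⁆ ∈ dr r :=
  Submodule.subset_span ⟨a, ha, b, hb, rfl⟩

theorem killing_dr {r : LieSubalgebra K L} {y : L}
    (h : ∀ a ∈ r, ∀ b ∈ r, killingForm K L y ⁅a, b⁆ = 0) {z : L} (hz : z ∈ dr r) :
    killingForm K L y z = 0 := by
  unfold dr at hz
  refine Submodule.span_induction (p := fun z _ => killingForm K L y z = 0) ?_ ?_ ?_ ?_ hz
  · rintro z ⟨a, ha, b, hb, rfl⟩; exact h a ha b hb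
  · exact map_zero _
  · intro a b _ _ ha hb; rw [map_add, ha, hb, add_zero]
  · intro c a _ ha; rw [map_smul, ha, smul_zero]

theorem dl_cent {s y : L} (hy : y ∈ dl K s) : ⁅s, y⁆ = 0 := by
  unfold dl at hy
  refine Submodule.span_induction (p := fun z _ => ⁅s, z⁆ = 0) ?_ ?_ ?_ ?_ hy
  · rintro z ⟨a, b, ha, hb, rfl⟩
    rw [leibniz_lie, ha, hb, zero_lie, lie_zero, add_zero]
  · exact lie_zero _
  · intro a b _ _ ha hb; rw [lie_add, ha, hb, add_zero]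
  · intro c a _ ha; rw [lie_smul, ha, smul_zero]

theorem lie_mem_dl {s a b : L} (ha : ⁅s, a⁆ = 0) (hb : ⁅s, b⁆ = 0) : ⁅a, b⁆ ∈ dl K s :=
  Submodule.subset_span ⟨a, b, ha, hb, rfl⟩

theorem lie_cent {s a b : L} (ha : ⁅s, a⁆ = 0) (hb : ⁅s, b⁆ = 0) : ⁅s, ⁅a, b⁆⁆ = 0 := by
  rw [leibniz_lie, ha, hb, zero_lie, lie_zero, add_zero]

theorem killing_dl {s y z : L} (hy : ∀ a b : L, ⁅s, a⁆ = 0 → ⁅s, b⁆ = 0 →
    killingForm K L y ⁅a, b⁆ = 0) (hz : z ∈ dl K s) : killingForm K L y z = 0 := by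
  unfold dl at hz
  refine Submodule.span_induction (p := fun z _ => killingForm K L y z = 0) ?_ ?_ ?_ ?_ hz
  · rintro z ⟨a, b, ha, hb, rfl⟩; exact hy a b ha hb
  · exact map_zero _
  · intro a b _ _ ha hb; rw [map_add, ha, hb, add_zero]
  · intro c a _ ha; rw [map_smul, ha, smul_zero]

theorem killing_Z_dl {s y z : L} (hy : Zc s y) (hz : z ∈ dl K s) : killingForm K L y z = 0 := by
  refine killing_dl (fun a b ha hb => ?_) hz
  rw [← LieModule.traceForm_apply_lie_apply, hy.2 a ha]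
  simp

namespace Ctx

variable {r : LieSubalgebra K L} {x s n w : L} (C : Ctx r x s n w)

include C

theorem mem_dg0 {y : L} : y ∈ dg K w 0 ↔ ⁅s, y⁆ = 0 := by
  rw [C.hw, LinearMap.mem_ker]; rfl

theorem x_cent : ⁅s, x⁆ = 0 := by rw [C.hx, lie_add, lie_self, C.hsn, add_zero]

theorem x_mem : x ∈ dg K w 0 := C.mem_dg0.mpr C.x_cent

theorem cent_of_x {y : L} (h : ⁅x, y⁆ = 0) : ⁅s, y⁆ = 0 := by
  have := C.hev y 0 (by rw [h, zero_smul])
  rwa [zero_smul] at this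

theorem dl_le : dl K s ≤ dg K w 0 := fun _ hy => C.mem_dg0.mpr (dl_cent hy)

variable (g : Gr K w)

theorem inj_ker {y : L} (h0 : g.P 0 y = 0) (h : ⁅x, y⁆ = 0) : y = 0 := by
  rw [← g.same 0 y (C.mem_dg0.mpr (C.cent_of_x h)), h0]

variable [CharZero K] [FiniteDimensional K L]

theorem killing_P0 {v : L} (hv : v ∈ dg K w 0) (y : L) :
    killingForm K L v (g.P 0 y) = killingForm K L v y := by
  have := g.killing_P 0 v y
  rw [neg_zero] at this
  rw [← this, g.same 0 v hv]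

theorem c1 {a : L} (ha : a ∈ (dr r ⊓ g.F 0).map (g.P 0)) : killingForm K L x a = 0 := by
  obtain ⟨ρ, hρ, rfl⟩ := ha
  rw [C.killing_P0 g C.x_mem]
  exact killing_dr C.H1 hρ.1

theorem c2 {a b : L} (ha : a ∈ (r.toSubmodule ⊓ g.F 0).map (g.P 0))
    (hb : b ∈ (r.toSubmodule ⊓ g.F 0).map (g.P 0)) : ⁅a, b⁆ ∈ (dr r ⊓ g.F 0).map (g.P 0) := by
  obtain ⟨ρ, hρ, rfl⟩ := ha
  obtain ⟨ρ', hρ', rfl⟩ := hb
  refine ⟨⁅ρ, ρ'⁆, ⟨lie_mem_dr hρ.1 hρ'.1, ?_⟩, ?_⟩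
  · have := g.lie_F hρ.2 hρ'.2
    rwa [zero_add] at this
  · have := g.P_lie_lead hρ.2 hρ'.2
    rwa [zero_add] at this

omit C [CharZero K] [FiniteDimensional K L] in
theorem r2l_le : (dr r ⊓ g.F 0).map (g.P 0) ≤ (r.toSubmodule ⊓ g.F 0).map (g.P 0) :=
  Submodule.map_mono (inf_le_inf_right _ (dr_le r))

theorem c3 {c : L} (h1 : ⁅x, c⁆ = 0) (h2 : c ∈ dl K s) : c ∈ (dr r ⊓ g.F 0).map (g.P 0) :=
  ⟨c, ⟨C.H3 c h1 h2, g.dg_le_F le_rfl (C.dl_le h2)⟩, g.same 0 c (C.dl_le h2)⟩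

theorem surj_F1 {u : L} (hu : u ∈ g.F 1) : ∃ u' ∈ g.F 1, ⁅x, u'⁆ = u := by
  have hst : ∀ y ∈ g.F 1, (LieAlgebra.ad K L x) y ∈ g.F 1 := by
    intro y hy
    have := g.lie_F (g.dg_le_F (le_refl 0) C.x_mem) hy
    rwa [zero_add] at this
  have hinj : Function.Injective ((LieAlgebra.ad K L x).restrict hst) := by
    rw [← LinearMap.ker_eq_bot, LinearMap.ker_eq_bot']
    intro y hy
    apply Subtype.ext
    refine C.inj_ker g (y.2 0 (by norm_num)) ?_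
    exact congrArg Subtype.val hy
  obtain ⟨u', hu'⟩ := (LinearMap.injective_iff_surjective.mp hinj) ⟨u, hu⟩
  exact ⟨u', u'.2, congrArg Subtype.val hu'⟩

variable [LieAlgebra.IsKilling K L]

omit [CharZero K] in
theorem c_i {a : L} (h : ∀ ρ ∈ r, killingForm K L ⁅a, x⁆ ρ = 0) :
    ∃ ρ ∈ r, ∃ c, ⁅x, c⁆ = 0 ∧ a = ρ + c := by
  set κ : LinearMap.BilinForm K L := killingForm K L with hκ
  have hnd : κ.Nondegenerate := LieAlgebra.IsKilling.killingForm_nondegenerate K L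
  set M : Submodule K L := r.toSubmodule.map (LieAlgebra.ad K L x) with hM
  set Q : Submodule K L := LinearMap.ker (LieAlgebra.ad K L x) with hQ
  have hA : r.toSubmodule ⊔ Q ≤ κ.orthogonal M := by
    rw [sup_le_iff]
    constructor
    · intro ρ hρ
      rw [LinearMap.BilinForm.mem_orthogonal_iff]
      rintro m ⟨ρ', hρ', rfl⟩
      show killingForm K L ⁅x, ρ'⁆ ρ = 0
      rw [killing_inv]
      exact C.H1 ρ' hρ' ρ hρ
    · intro c hc
      rw [LinearMap.BilinForm.mem_orthogonal_iff]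
      rintro m ⟨ρ', hρ', rfl⟩
      show killingForm K L ⁅x, ρ'⁆ c = 0
      rw [← lie_skew, map_neg, LinearMap.neg_apply, killing_inv]
      have : ⁅x, c⁆ = 0 := hc
      rw [this]; simp
  have hdim : finrank K (κ.orthogonal M) ≤ finrank K (r.toSubmodule ⊔ Q : Submodule K L) := by
    rw [LinearMap.BilinForm.finrank_orthogonal hnd]
    have e1 := Submodule.finrank_sup_add_finrank_inf_eq r.toSubmodule Q
    have e2 : finrank K (LinearMap.range (LieAlgebra.ad K L x)) + finrank K Q = finrank K L :=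
      LinearMap.finrank_range_add_finrank_ker (LieAlgebra.ad K L x)
    have e3 := LinearMap.finrank_range_add_finrank_ker ((LieAlgebra.ad K L x).domRestrict r.toSubmodule)
    have e4 : LinearMap.range ((LieAlgebra.ad K L x).domRestrict r.toSubmodule) = M := by
      ext y
      constructor
      · rintro ⟨z, rfl⟩; exact ⟨z, z.2, rfl⟩
      · rintro ⟨z, hz, rfl⟩; exact ⟨⟨z, hz⟩, rfl⟩
    have e5 : finrank K (LinearMap.ker ((LieAlgebra.ad K L x).domRestrict r.toSubmodule)) =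
        finrank K (r.toSubmodule ⊓ Q : Submodule K L) := by
      have e6 : (LinearMap.ker ((LieAlgebra.ad K L x).domRestrict r.toSubmodule)).map
          r.toSubmodule.subtype = r.toSubmodule ⊓ Q := by
        ext y
        constructor
        · rintro ⟨z, hz, rfl⟩; exact ⟨z.2, hz⟩
        · rintro ⟨h1, h2⟩; exact ⟨⟨y, h1⟩, h2, rfl⟩
      rw [← e6]
      exact (Submodule.equivSubtypeMap _ _).finrank_eq
    have e7 := C.H2
    rw [e4, e5] at e3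
    rw [← hM] at e7
    omega
  have heq := Submodule.eq_of_le_of_finrank_le hA hdim
  have ha : a ∈ r.toSubmodule ⊔ Q := by
    rw [heq, LinearMap.BilinForm.mem_orthogonal_iff]
    rintro m ⟨ρ', hρ', rfl⟩
    show killingForm K L ⁅x, ρ'⁆ a = 0
    rw [killing_symm, ← killing_inv]
    exact h ρ' hρ'
  obtain ⟨ρ, hρ, c, hc, e⟩ := Submodule.mem_sup.mp ha
  exact ⟨ρ, hρ, c, hc, e.symm⟩

omit C [CharZero K] in
theorem orth_top {A Q : Submodule K L} {v : L} (h : ∀ b ∈ A, b ∈ Q → killingForm K L v b = 0) :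
    ∃ v1 v2, v = v1 + v2 ∧ (∀ a ∈ A, killingForm K L v1 a = 0) ∧
      ∀ c ∈ Q, killingForm K L v2 c = 0 := by
  have hnd := LieAlgebra.IsKilling.killingForm_nondegenerate K L
  obtain ⟨v1, _, v2, _, e, h1, h2⟩ := orth_inf (killingForm K L) killing_symm ⊤
    (fun y _ hy => hnd.1 y fun a => hy a trivial) (A := A) (C := Q) (v := v) trivial
    (fun b _ => h b)
  exact ⟨v1, v2, e, fun a => h1 a trivial, fun a => h2 a trivial⟩

theorem c4 {a : L} (ha : a ∈ dg K w 0)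
    (h : ∀ b ∈ (r.toSubmodule ⊓ g.F 0).map (g.P 0), killingForm K L ⁅a, x⁆ b = 0) :
    ∃ ρ ∈ (r.toSubmodule ⊓ g.F 0).map (g.P 0), ∃ c, ⁅x, c⁆ = 0 ∧ a = ρ + c := by
  have hv : ⁅a, x⁆ ∈ dg K w 0 := by
    have := Gr.lie_mem_dg ha C.x_mem
    rwa [zero_add] at this
  obtain ⟨η, u1, e, h1, h2⟩ := orth_top (A := r.toSubmodule) (Q := g.F 0) (v := ⁅a, x⁆)
    (fun b hb hb' => by
      rw [← C.killing_P0 g hv]
      exact h _ ⟨b, ⟨hb, hb'⟩, rfl⟩)
  have hu1 : u1 ∈ g.F 1 := g.mem_F_one h2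
  obtain ⟨u2, hu2, e2⟩ := C.surj_F1 g hu1
  have e3 : ⁅a + u2, x⁆ = η := by
    rw [add_lie, e, ← lie_skew u2 x, e2]
    abel
  obtain ⟨ρ, hρ, c, hc, e4⟩ := C.c_i (a := a + u2) (fun ρ hρ => by rw [e3]; exact h1 ρ hρ)
  have hcm : c ∈ dg K w 0 := C.mem_dg0.mpr (C.cent_of_x hc)
  have e5 : ρ = a + u2 - c := by rw [e4]; abel
  refine ⟨g.P 0 ρ, ⟨ρ, ⟨hρ, ?_⟩, rfl⟩, c, hc, ?_⟩
  · rw [e5]
    exact Submodule.sub_mem _ (Submodule.add_mem _ (g.dg_le_F le_rfl ha)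
      (g.F_mono (by norm_num) hu2)) (g.dg_le_F le_rfl hcm)
  · rw [e5, map_sub, map_add, g.same 0 a ha, g.same 0 c hcm, hu2 0 (by norm_num)]
    abel

end Ctx

end Pool.Agent.TH293.Sem
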