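import Pool.Agent.TH293.Sem.Main

set_option autoImplicit false

universe u v

namespace Pool.Agent.TH293.Sem

open Module Pool.Agent.TH28.FL

variable {K : Type u} {L : Type v} [Field K] [LieRing L] [LieAlgebra K L]

namespace Ctx

variable {r : LieSubalgebra K L} {x s n w : L} (C : Ctx r x s n w) (g : Gr K w)
  [CharZero K] [FiniteDimensional K L] [LieAlgebra.IsKilling K L]

/-- the action of an element of degree zero on a graded piece or on the complement of `dg 0` -/
theorem stC {v : L} (hv : v ∈ dg K w 0) :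
    ∀ y ∈ LinearMap.ker (g.P 0), (LieAlgebra.ad K L v) y ∈ LinearMap.ker (g.P 0) := by
  intro y hy
  rw [LinearMap.mem_ker] at hy ⊢
  show g.P 0 ⁅v, y⁆ = 0
  rw [g.P_lie0 0 hv, hy, lie_zero]

omit [CharZero K] [FiniteDimensional K L] [LieAlgebra.IsKilling K L] in
theorem stl {v : L} (hv : v ∈ dg K w 0) :
    ∀ y ∈ dg K w 0, (LieAlgebra.ad K L v) y ∈ dg K w 0 := by
  intro y hy
  have := Gr.lie_mem_dg hv hy
  rwa [zero_add] at this

theorem lead_pow {y : L} (hy : y ∈ g.F 0) {e : L} {j : ℤ} (he : e ∈ g.F j) (k : ℕ) :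
    ((LieAlgebra.ad K L y) ^ k) e ∈ g.F j ∧
      g.P j (((LieAlgebra.ad K L y) ^ k) e) = ((LieAlgebra.ad K L (g.P 0 y)) ^ k) (g.P j e) := by
  induction k with
  | zero => exact ⟨by simpa using he, by simp⟩
  | succ k ih =>
    rw [pow_succ', pow_succ', Module.End.mul_apply, Module.End.mul_apply]
    constructor
    · have := g.lie_F hy ih.1
      rwa [zero_add] at this
    · have := g.P_lie_lead hy ih.1
      rw [zero_add] at this
      show g.P j ⁅y, ((LieAlgebra.ad K L y) ^ k) e⁆ = _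
      rw [this, ih.2]
      rfl

include C

theorem c5 {v : L} (hv : v ∈ dg K w 0)
    (h : ∀ b ∈ (dr r ⊓ g.F 0).map (g.P 0), killingForm K L v b = 0) :
    IsNilpotent ((LieAlgebra.ad K L v).restrict (stl (K := K) hv)) := by
  -- decomposition of v
  obtain ⟨η, u1, e, h1, h2⟩ := orth_top (A := dr r) (Q := g.F 0) (v := v)
    (fun b hb hb' => by
      rw [← C.killing_P0 g hv]
      exact h _ ⟨b, ⟨hb, hb'⟩, rfl⟩)
  have hu1 : u1 ∈ g.F 1 := g.mem_F_one h2
  -- the pencil on the complement of `dg 0`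
  set A := (LieAlgebra.ad K L x).restrict (stC g C.x_mem) with hA
  set Bv := (LieAlgebra.ad K L v).restrict (stC g hv) with hBv
  have hAinj : Function.Injective A := by
    rw [← LinearMap.ker_eq_bot, LinearMap.ker_eq_bot']
    intro y hy
    apply Subtype.ext
    exact C.inj_ker g y.2 (congrArg Subtype.val hy)
  obtain ⟨S, hS, hSinj⟩ := pencil_inj A Bv hAinj
  refine nilp_const ((LieAlgebra.ad K L v).restrict (stl (K := K) hv))
    ((LieAlgebra.ad K L x).restrict (stl (K := K) C.x_mem)) S hS ?_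
  intro τ hτ
  have hτinj : ∀ c, g.P 0 c = 0 → ⁅v + τ • x, c⁆ = 0 → c = 0 := by
    intro c hc h3
    have := hSinj τ hτ ⟨c, hc⟩ (Subtype.ext (by
      show ⁅v, c⁆ + τ • ⁅x, c⁆ = 0
      rw [← smul_lie, ← add_lie]; exact h3))
    exact congrArg Subtype.val this
  -- the element y
  set y : L := η + τ • x with hy
  have hye : y = (v + τ • x) - u1 := by rw [hy, e]; abel
  have hvx : v + τ • x ∈ dg K w 0 :=
    Submodule.add_mem _ hv (Submodule.smul_mem _ _ C.x_mem)
  have hyF : y ∈ g.F 0 := by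
    rw [hye]
    exact Submodule.sub_mem _ (g.dg_le_F le_rfl hvx) (g.F_mono (by norm_num) hu1)
  have hyP : g.P 0 y = v + τ • x := by
    rw [hye, map_sub, g.same 0 _ hvx, hu1 0 (by norm_num), sub_zero]
  have hyr : ∀ a ∈ r, ∀ b ∈ r, killingForm K L y ⁅a, b⁆ = 0 := by
    intro a ha b hb
    rw [hy, map_add, map_smul, LinearMap.add_apply, LinearMap.smul_apply, C.H1 a ha b hb,
      h1 _ (lie_mem_dr ha hb)]
    simp
  have hdim := C.H4 y hyr
  have hl : dg K w 0 ≤ (LieSubalgebra.engel K x).toSubmodule := by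
    intro z hz
    obtain ⟨k, hk⟩ := C.hn
    show z ∈ LieSubalgebra.engel K x
    rw [LieSubalgebra.mem_engel_iff]
    refine ⟨k, ?_⟩
    have key : ∀ i : ℕ, ((LieAlgebra.ad K L x) ^ i) z ∈ dg K w 0 ∧
        ((LieAlgebra.ad K L x) ^ i) z = ((LieAlgebra.ad K L n) ^ i) z := by
      intro i
      induction i with
      | zero => exact ⟨by simpa using hz, by simp⟩
      | succ i ih =>
        rw [pow_succ', pow_succ', Module.End.mul_apply, Module.End.mul_apply]
        refine ⟨stl C.x_mem _ ih.1, ?_⟩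
        rw [← ih.2]
        show ⁅x, _⁆ = ⁅n, _⁆
        have h3 := C.mem_dg0.mp ih.1
        nth_rewrite 1 [C.hx]
        rw [add_lie, h3, zero_add]
    rw [(key k).2, hk]
    rfl
  have hdim2 : finrank K (dg K w 0) ≤ finrank K (LieSubalgebra.engel K y).toSubmodule :=
    (Submodule.finrank_mono hl).trans hdim
  -- leading terms of elements of the Engel subalgebra
  have hlead : ∀ z, z ∈ LieSubalgebra.engel K y → ∀ j, z ∈ g.F j →
      ∃ k : ℕ, ((LieAlgebra.ad K L (v + τ • x)) ^ k) (g.P j z) = 0 := by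
    intro z hz j hj
    rw [LieSubalgebra.mem_engel_iff] at hz
    obtain ⟨k, hk⟩ := hz
    refine ⟨k, ?_⟩
    have := (lead_pow g hyF hj k).2
    rw [hk, map_zero, hyP] at this
    exact this.symm
  have hpow0 : ∀ k : ℕ, ∀ c, g.P 0 c = 0 → ((LieAlgebra.ad K L (v + τ • x)) ^ k) c = 0 → c = 0 := by
    intro k
    induction k with
    | zero => intro c _ h3; simpa using h3
    | succ k ih =>
      intro c hc h3
      rw [pow_succ, Module.End.mul_apply] at h3
      have h4 := ih _ (by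
        show g.P 0 ⁅v + τ • x, c⁆ = 0
        rw [g.P_lie0 0 hvx, hc, lie_zero]) h3
      exact hτinj c hc h4
  have hne : ∀ z, z ∈ LieSubalgebra.engel K y → ∀ j, j ≠ 0 → z ∈ g.F j → g.P j z = 0 := by
    intro z hz j hj hzj
    obtain ⟨k, hk⟩ := hlead z hz j hzj
    refine hpow0 k _ ?_ hk
    rw [g.P_P, if_neg hj]
  have hEF : ∀ z, z ∈ LieSubalgebra.engel K y → z ∈ g.F 0 := fun z hz =>
    g.mem_F_of fun j hj hzj => hne z hz j (by omega) hzj
  -- the projection is injective, hence surjective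
  set p : (LieSubalgebra.engel K y).toSubmodule →ₗ[K] dg K w 0 :=
    (g.P 0).restrict (p := (LieSubalgebra.engel K y).toSubmodule) (q := dg K w 0)
      (fun z _ => g.mem 0 z) with hp
  have hpinj : Function.Injective p := by
    rw [← LinearMap.ker_eq_bot, LinearMap.ker_eq_bot']
    intro z hz
    apply Subtype.ext
    have hz0 : g.P 0 (z : L) = 0 := congrArg Subtype.val hz
    refine g.eq_zero_of_F (hEF z z.2) fun j hj hzj => ?_
    rcases eq_or_lt_of_le hj with h3 | h3
    · rw [← h3]; exact hz0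
    · exact hne z z.2 j (by omega) hzj
  have hpsurj : Function.Surjective p := by
    have h3 : finrank K (LieSubalgebra.engel K y).toSubmodule ≤ finrank K (dg K w 0) :=
      LinearMap.finrank_le_finrank_of_injective hpinj
    exact (LinearMap.injective_iff_surjective_of_finrank_eq_finrank (le_antisymm h3 hdim2)).mp hpinj
  refine ((LinearMap.charpoly_nilpotent_tfae _).out 0 2).mpr ?_
  intro z
  obtain ⟨z', hz'⟩ := hpsurj z
  obtain ⟨k, hk⟩ := hlead z' z'.2 0 (hEF _ z'.2)
  refine ⟨k, ?_⟩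
  have h3 : g.P 0 (z' : L) = z := congrArg Subtype.val hz'
  rw [h3] at hk
  have key : ∀ (i : ℕ) (m : dg K w 0),
      ((((LieAlgebra.ad K L v).restrict (stl (K := K) hv) +
        τ • (LieAlgebra.ad K L x).restrict (stl (K := K) C.x_mem)) ^ i) m : L) =
      ((LieAlgebra.ad K L (v + τ • x)) ^ i) (m : L) := by
    intro i
    induction i with
    | zero => intro m; simp
    | succ i ih =>
      intro m
      rw [pow_succ, pow_succ, Module.End.mul_apply, Module.End.mul_apply, ih]
      congr 1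
      show ⁅v, (m : L)⁆ + τ • ⁅x, (m : L)⁆ = ⁅v + τ • x, (m : L)⁆
      rw [add_lie, smul_lie]
  apply Subtype.ext
  rw [key, hk]
  rfl

theorem Z_mem {z : L} (hz : Zc s z) : z ∈ dg K w 0 := C.mem_dg0.mpr hz.1

theorem c6 (hJ : ∀ x : L, ∃ s n : L, x = s + n ∧ ⁅s, n⁆ = 0 ∧ (LieAlgebra.ad K L s).IsSemisimple ∧
      IsNilpotent (LieAlgebra.ad K L n) ∧ ∀ (y : L) (c : K), ⁅x, y⁆ = c • y → ⁅s, y⁆ = c • y)
    {z v' : L} (hz : Zc s z) (hv' : v' ∈ dl K s)
    (h : ∀ b ∈ (dr r ⊓ g.F 0).map (g.P 0), killingForm K L (z + v') b = 0) :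
    IsNilpotent (LieAlgebra.ad K L v') := by
  have hv0 : v' ∈ dg K w 0 := C.dl_le hv'
  have hnil := C.c5 g (Submodule.add_mem _ (C.Z_mem hz) hv0) h
  have hnil' : IsNilpotent ((LieAlgebra.ad K L v').restrict (stl (K := K) hv0)) := by
    have e : (LieAlgebra.ad K L (z + v')).restrict
        (stl (K := K) (Submodule.add_mem _ (C.Z_mem hz) hv0)) =
        (LieAlgebra.ad K L v').restrict (stl (K := K) hv0) := by
      ext y
      show ⁅z + v', (y : L)⁆ = ⁅v', (y : L)⁆
      rw [add_lie, hz.2 _ (C.mem_dg0.mp y.2), zero_add]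
    rwa [e] at hnil
  obtain ⟨s', n', e, hsn', hss', hn', hev'⟩ := hJ v'
  have hv's : ⁅v', s⁆ = 0 := by
    rw [← lie_skew, C.mem_dg0.mp hv0, neg_zero]
  have hs's : ⁅s', s⁆ = 0 := by
    have := hev' s 0 (by rw [hv's, zero_smul])
    rwa [zero_smul] at this
  have hss'0 : ⁅s, s'⁆ = 0 := by rw [← lie_skew, hs's, neg_zero]
  have hs'm : s' ∈ dg K w 0 := C.mem_dg0.mpr hss'0
  have hn'e : n' = v' - s' := by rw [e]; abel
  have hn'm : n' ∈ dg K w 0 := by rw [hn'e]; exact Submodule.sub_mem _ hv0 hs'm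
  have hn'res : IsNilpotent ((LieAlgebra.ad K L n').restrict (stl (K := K) hn'm)) :=
    Module.End.isNilpotent.restrict _ hn'
  have hcomm : Commute ((LieAlgebra.ad K L v').restrict (stl (K := K) hv0))
      ((LieAlgebra.ad K L n').restrict (stl (K := K) hn'm)) := by
    ext y
    show ⁅v', ⁅n', (y : L)⁆⁆ = ⁅n', ⁅v', (y : L)⁆⁆
    have h1 : ⁅v', n'⁆ = 0 := by rw [e, add_lie, hsn', lie_self, add_zero]
    rw [leibniz_lie, h1, zero_lie, zero_add]
  have hs'res : IsNilpotent ((LieAlgebra.ad K L s').restrict (stl (K := K) hs'm)) := by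
    have e2 : (LieAlgebra.ad K L s').restrict (stl (K := K) hs'm) =
        (LieAlgebra.ad K L v').restrict (stl (K := K) hv0) -
        (LieAlgebra.ad K L n').restrict (stl (K := K) hn'm) := by
      ext y
      show ⁅s', (y : L)⁆ = ⁅v', (y : L)⁆ - ⁅n', (y : L)⁆
      rw [hn'e, sub_lie]; abel
    rw [e2]
    exact hcomm.isNilpotent_sub hnil' hn'res
  have hs'Z : Zc s s' := by
    refine ⟨hss'0, fun a ha => ?_⟩
    obtain ⟨k, hk⟩ := hs'res
    have h1 : (((LieAlgebra.ad K L s').restrict (stl (K := K) hs'm)) ^ k) ⟨a, C.mem_dg0.mpr ha⟩ = 0 := by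
      rw [hk]; rfl
    have h2 : ((LieAlgebra.ad K L s') ^ k) a = 0 := by
      rw [Module.End.pow_restrict] at h1
      exact congrArg Subtype.val h1
    exact semisimple_pow hss' h2
  have hs'0 : s' = 0 := by
    refine C.levi1 s' hss'0 fun a ha => ?_
    obtain ⟨z1, hz1, ha'⟩ := C.levi3 a ha
    have e3 : a = z1 + (a - z1) := by abel
    rw [e3, map_add, killing_Z_dl hs'Z ha', add_zero]
    have h1 : killingForm K L v' z1 = 0 := by
      rw [killing_symm]; exact killing_Z_dl hz1 hv'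
    have h2 : killingForm K L n' z1 = 0 := by
      refine killing_nil ?_ hn'
      rw [← lie_skew, hz1.2 n' (C.mem_dg0.mp hn'm), neg_zero]
    have h3 : s' = v' - n' := by rw [e]; abel
    rw [h3, map_sub, LinearMap.sub_apply, h1, h2, sub_zero]
  rw [e, hs'0, zero_add]
  exact hn'

end Ctx

end Pool.Agent.TH293.Sem
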