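import Pool.Agent.TH293.Sem.Gr

/-!
# Leading terms of a subspace and traces
-/

set_option autoImplicit false

universe u v

namespace Pool.Agent.TH293.Sem

open Module Pool.Agent.TH28.FL

variable {K : Type u} {L : Type v} [Field K] [LieRing L] [LieAlgebra K L]

theorem exists_section (f : L →ₗ[K] L) (S : Submodule K L) :
    ∃ σ : L →ₗ[K] L, ∀ a ∈ S.map f, σ a ∈ S ∧ f (σ a) = a := by
  set p : S →ₗ[K] S.map f := (f.restrict (p := S) (q := S.map f)
    (fun x hx => Submodule.mem_map_of_mem hx)) with hp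
  have hsurj : LinearMap.range p = ⊤ := by
    rw [LinearMap.range_eq_top]
    rintro ⟨y, x, hx, rfl⟩
    exact ⟨⟨x, hx⟩, rfl⟩
  obtain ⟨s, hs⟩ := p.exists_rightInverse_of_surjective hsurj
  obtain ⟨σ, hσ⟩ := LinearMap.exists_extend (S.subtype ∘ₗ s)
  refine ⟨σ, fun a ha => ?_⟩
  have h1 : σ a = (s ⟨a, ha⟩ : L) := by
    have := LinearMap.congr_fun hσ ⟨a, ha⟩
    exact this
  rw [h1]
  refine ⟨(s ⟨a, ha⟩).2, ?_⟩
  have h2 := LinearMap.congr_fun hs ⟨a, ha⟩
  exact congrArg Subtype.val h2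

variable {w : L} (g : Gr K w)

/-- the space spanned by the leading terms of `R` -/
def Gr.lead (R : Submodule K L) : Submodule K L where
  carrier := {a | ∀ j, g.P j a ∈ (R ⊓ g.F j).map (g.P j)}
  add_mem' := by
    intro a b ha hb j
    rw [map_add]
    exact Submodule.add_mem _ (ha j) (hb j)
  zero_mem' := by
    intro j
    rw [map_zero]
    exact Submodule.zero_mem _
  smul_mem' := by
    intro c a ha j
    rw [map_smul]
    exact Submodule.smul_mem _ c (ha j)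

theorem Gr.mem_lead {R : Submodule K L} {a : L} :
    a ∈ g.lead R ↔ ∀ j, g.P j a ∈ (R ⊓ g.F j).map (g.P j) := Iff.rfl

theorem Gr.P_mem_lead {R : Submodule K L} {j : ℤ} {ρ : L} (h1 : ρ ∈ R) (h2 : ρ ∈ g.F j) :
    g.P j ρ ∈ g.lead R := by
  intro i
  rw [g.P_P]
  by_cases h : j = i
  · subst h
    rw [if_pos rfl]
    exact Submodule.mem_map_of_mem ⟨h1, h2⟩
  · rw [if_neg h]
    exact Submodule.zero_mem _

theorem Gr.lead_zero {R : Submodule K L} {a : L} (h : a ∈ g.lead R) (h0 : a ∈ dg K w 0) :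
    ∃ ρ ∈ R, ρ ∈ g.F 0 ∧ g.P 0 ρ = a := by
  obtain ⟨ρ, hρ, e⟩ := h 0
  rw [g.same 0 a h0] at e
  exact ⟨ρ, hρ.1, hρ.2, e⟩

theorem Gr.lead_stable {R : Submodule K L} {b : L} (hb : b ∈ g.F 0)
    (hst : ∀ ρ ∈ R, ⁅b, ρ⁆ ∈ R) {a : L} (ha : a ∈ g.lead R) : ⁅g.P 0 b, a⁆ ∈ g.lead R := by
  intro j
  obtain ⟨ρ, hρ, e⟩ := ha j
  rw [g.P_lie0 j (g.mem 0 b), ← e]
  have h1 := g.P_lie_lead hb hρ.2
  rw [zero_add] at h1
  rw [← h1]
  refine Submodule.mem_map_of_mem ⟨hst _ hρ.1, ?_⟩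
  have := g.lie_F hb hρ.2
  rwa [zero_add] at this

theorem Gr.trace_lead [FiniteDimensional K L] {R : Submodule K L} {b : L} (hb : b ∈ g.F 0)
    (hst : ∀ ρ ∈ R, ⁅b, ρ⁆ ∈ R)
    (hst' : ∀ a ∈ g.lead R, (LieAlgebra.ad K L (g.P 0 b)) a ∈ g.lead R) :
    LinearMap.trace K (g.lead R) ((LieAlgebra.ad K L (g.P 0 b)).restrict hst') =
      LinearMap.trace K R ((LieAlgebra.ad K L b).restrict hst) := by
  choose σ hσ using fun j : ℤ => exists_section (g.P j) (R ⊓ g.F j)
  set Ψ : L →ₗ[K] L := ∑ j ∈ Finset.Icc (-g.N) g.N, (σ j) ∘ₗ (g.P j) with hΨ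
  have hΨa : ∀ a, Ψ a = ∑ j ∈ Finset.Icc (-g.N) g.N, σ j (g.P j a) := by
    intro a
    rw [hΨ, LinearMap.sum_apply]
    rfl
  have c1 : ∀ a ∈ g.lead R, Ψ a ∈ R := by
    intro a ha
    rw [hΨa]
    exact Submodule.sum_mem _ fun j _ => ((hσ j _ (ha j)).1).1
  have c2 : ∀ a ∈ g.lead R, ∀ q, a ∈ g.F q → Ψ a ∈ g.F q := by
    intro a ha q hq
    rw [hΨa]
    refine Submodule.sum_mem _ fun j _ => ?_
    rcases lt_or_ge j q with h | h
    · rw [hq j h, map_zero]; exact Submodule.zero_mem _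
    · exact g.F_mono h ((hσ j _ (ha j)).1).2
  have c3 : ∀ a ∈ g.lead R, ∀ q, a ∈ g.F q → g.P q (Ψ a) = g.P q a := by
    intro a ha q hq
    rw [hΨa, map_sum]
    by_cases hqN : q ∈ Finset.Icc (-g.N) g.N
    · rw [Finset.sum_eq_single_of_mem q hqN]
      · exact (hσ q _ (ha q)).2
      · intro j _ hj
        rcases lt_or_gt_of_ne hj with h | h
        · rw [hq j h, map_zero, map_zero]
        · exact ((hσ j _ (ha j)).1).2 q h
    · have h0 : ∀ y, g.P q y = 0 := by
        intro y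
        refine g.bot q ?_ _ (g.mem q y)
        by_contra hcon
        push Not at hcon
        exact hqN (Finset.mem_Icc.mpr (abs_le.mp hcon))
      rw [h0 a]
      exact Finset.sum_eq_zero fun j _ => h0 _
  set ΨW : g.lead R →ₗ[K] R := Ψ.restrict c1 with hΨW
  have hΨWa : ∀ a : g.lead R, (ΨW a : L) = Ψ a := fun a => rfl
  have hinj : Function.Injective ΨW := by
    rw [← LinearMap.ker_eq_bot, LinearMap.ker_eq_bot']
    intro a ha
    apply Subtype.ext
    refine g.eq_zero_of_F (g.F_low (a : L)) fun j _ hj => ?_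
    rw [← c3 a a.2 j hj, ← hΨWa, ha]
    simp
  have hsurj : ∀ k : ℕ, ∀ q : ℤ, g.N < q + k → ∀ ρ ∈ R, ρ ∈ g.F q →
      ∃ a ∈ g.lead R, a ∈ g.F q ∧ Ψ a = ρ := by
    intro k
    induction k with
    | zero =>
      intro q hq ρ _ h2
      rw [g.F_high (by simpa using hq) h2]
      exact ⟨0, Submodule.zero_mem _, Submodule.zero_mem _, map_zero _⟩
    | succ k ih =>
      intro q hq ρ h1 h2
      have h3 : g.P q ρ ∈ g.lead R := g.P_mem_lead h1 h2
      have h4 : g.P q ρ ∈ g.F q := g.dg_le_F le_rfl (g.mem q ρ)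
      have h5 : ρ - Ψ (g.P q ρ) ∈ g.F (q + 1) := by
        refine g.mem_F_succ (Submodule.sub_mem _ h2 (c2 _ h3 q h4)) ?_
        rw [map_sub, c3 _ h3 q h4, g.P_P, if_pos rfl, sub_self]
      obtain ⟨a, ha1, ha2, ha3⟩ := ih (q + 1) (by push_cast at hq; omega) _
        (Submodule.sub_mem _ h1 (c1 _ h3)) h5
      refine ⟨a + g.P q ρ, Submodule.add_mem _ ha1 h3,
        Submodule.add_mem _ (g.F_mono (by omega) ha2) h4, ?_⟩
      rw [map_add, ha3]
      abel
  have hbij : Function.Bijective ΨW := by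
    refine ⟨hinj, fun ρ => ?_⟩
    obtain ⟨a, ha1, _, ha3⟩ := hsurj (2 * g.N + 1).toNat (-g.N)
      (by have := Int.self_le_toNat (2 * g.N + 1); omega) ρ ρ.2 (g.F_low _)
    exact ⟨⟨a, ha1⟩, Subtype.ext ha3⟩
  set e : g.lead R ≃ₗ[K] R := LinearEquiv.ofBijective ΨW hbij with he
  have hea : ∀ a : g.lead R, (e a : L) = Ψ a := fun a => rfl
  set A : Module.End K R := (LieAlgebra.ad K L b).restrict hst with hA
  set H : Module.End K (g.lead R) := (LieAlgebra.ad K L (g.P 0 b)).restrict hst' with hH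
  have hconj : LinearMap.trace K (g.lead R) (e.symm.conj A) = LinearMap.trace K R A :=
    LinearMap.trace_conj' A e.symm
  set D : Module.End K (g.lead R) := e.symm.conj A - H with hD
  have hDF : ∀ (a : g.lead R) (q : ℤ), (a : L) ∈ g.F q → (D a : L) ∈ g.F (q + 1) := by
    intro a q hq
    -- the image under Ψ
    have h1 : (e (D a) : L) = ⁅b, Ψ a⁆ - Ψ ⁅g.P 0 b, (a : L)⁆ := by
      have e1 : D a = e.symm (A (e a)) - H a := rfl
      rw [e1, map_sub, LinearEquiv.apply_symm_apply]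
      rfl
    have h2 : (⁅g.P 0 b, (a : L)⁆ : L) ∈ g.F q := by
      have := g.lie_F (g.dg_le_F (le_refl 0) (g.mem 0 b)) hq
      rwa [zero_add] at this
    have h3 : (e (D a) : L) ∈ g.F (q + 1) := by
      rw [h1]
      have h4 : ⁅b, Ψ a⁆ ∈ g.F q := by
        have := g.lie_F hb (c2 a a.2 q hq)
        rwa [zero_add] at this
      refine g.mem_F_succ (Submodule.sub_mem _ h4 (c2 _ (hst' a a.2) q h2)) ?_
      have h5 := g.P_lie_lead hb (c2 a a.2 q hq)
      rw [zero_add] at h5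
      have h7 : ⁅g.P 0 b, (a : L)⁆ ∈ g.lead R := hst' a a.2
      rw [map_sub, h5, c3 a a.2 q hq, c3 _ h7 q h2, g.P_lie0 q (g.mem 0 b), sub_self]
    obtain ⟨a', ha1, ha2, ha3⟩ := hsurj (g.N - q + 1).toNat (q + 1)
      (by have := Int.self_le_toNat (g.N - q + 1); omega) _ (e (D a)).2 h3
    have h6 : (⟨a', ha1⟩ : g.lead R) = D a := by
      apply hinj
      apply Subtype.ext
      exact ha3
    rw [← h6]
    exact ha2
  have hDnil : IsNilpotent D := by
    refine ⟨(2 * g.N + 1).toNat, ?_⟩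
    have key : ∀ (k : ℕ) (a : g.lead R), ((D ^ k) a : L) ∈ g.F (-g.N + k) := by
      intro k
      induction k with
      | zero => intro a; simpa using g.F_low (a : L)
      | succ k ih =>
        intro a
        rw [pow_succ', Module.End.mul_apply]
        have := hDF _ _ (ih a)
        push_cast
        rwa [← add_assoc]
    ext a
    have := key (2 * g.N + 1).toNat a
    refine g.F_high ?_ this
    have := Int.self_le_toNat (2 * g.N + 1)
    omega
  have hD0 : LinearMap.trace K (g.lead R) D = 0 :=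
    (LinearMap.isNilpotent_trace_of_isNilpotent hDnil).eq_zero
  have : LinearMap.trace K (g.lead R) D = LinearMap.trace K (g.lead R) (e.symm.conj A) -
      LinearMap.trace K (g.lead R) H := by rw [hD, map_sub]
  rw [hD0, hconj] at this
  exact (sub_eq_zero.mp this.symm).symm

/-- elements of `[r, r]` act with trace zero on `[r, r]` -/
theorem trace_derived [FiniteDimensional K L] (r : LieSubalgebra K L) (R : Submodule K L)
    (hR : R = Submodule.span K {z : L | ∃ a ∈ r, ∃ b ∈ r, z = ⁅a, b⁆})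
    (hst : ∀ a ∈ r, ∀ ρ ∈ R, ⁅a, ρ⁆ ∈ R) {b : L} (hb : b ∈ R) (hb' : ∀ ρ ∈ R, ⁅b, ρ⁆ ∈ R) :
    LinearMap.trace K R ((LieAlgebra.ad K L b).restrict hb') = 0 := by
  have hle : R ≤ r.toSubmodule := by
    rw [hR, Submodule.span_le]
    rintro z ⟨a, ha, c, hc, rfl⟩
    exact r.lie_mem ha hc
  have key : ∀ b ∈ R, ∀ hb' : ∀ ρ ∈ R, (LieAlgebra.ad K L b) ρ ∈ R,
      LinearMap.trace K R ((LieAlgebra.ad K L b).restrict hb') = 0 := by
    intro b hb
    have hb2 := hb
    rw [hR] at hb2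
    refine Submodule.span_induction (p := fun b _ => ∀ hb' : ∀ ρ ∈ R, (LieAlgebra.ad K L b) ρ ∈ R,
      LinearMap.trace K R ((LieAlgebra.ad K L b).restrict hb') = 0) ?_ ?_ ?_ ?_ hb2
    · rintro z ⟨a, ha, c, hc, rfl⟩ hb'
      have h1 : (LieAlgebra.ad K L ⁅a, c⁆).restrict hb' =
          ((LieAlgebra.ad K L a).restrict (hst a ha)) * ((LieAlgebra.ad K L c).restrict (hst c hc)) -
          ((LieAlgebra.ad K L c).restrict (hst c hc)) * ((LieAlgebra.ad K L a).restrict (hst a ha)) := by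
        ext ρ
        show ⁅⁅a, c⁆, (ρ : L)⁆ = ⁅a, ⁅c, (ρ : L)⁆⁆ - ⁅c, ⁅a, (ρ : L)⁆⁆
        rw [lie_lie]
      rw [h1, map_sub, LinearMap.trace_mul_comm, sub_self]
    · intro hb'
      have h1 : (LieAlgebra.ad K L (0 : L)).restrict hb' = 0 := by
        ext ρ
        show ⁅(0 : L), (ρ : L)⁆ = 0
        rw [zero_lie]
      rw [h1, map_zero]
    · intro x y hx hy ihx ihy hb'
      have hxr : x ∈ r := hle (hR ▸ hx)
      have hyr : y ∈ r := hle (hR ▸ hy)
      have h1 : (LieAlgebra.ad K L (x + y)).restrict hb' =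
          (LieAlgebra.ad K L x).restrict (hst x hxr) + (LieAlgebra.ad K L y).restrict (hst y hyr) := by
        ext ρ
        show ⁅x + y, (ρ : L)⁆ = ⁅x, (ρ : L)⁆ + ⁅y, (ρ : L)⁆
        rw [add_lie]
      rw [h1, map_add, ihx (hst x hxr), ihy (hst y hyr), add_zero]
    · intro c x hx ihx hb'
      have hxr : x ∈ r := hle (hR ▸ hx)
      have h1 : (LieAlgebra.ad K L (c • x)).restrict hb' =
          c • (LieAlgebra.ad K L x).restrict (hst x hxr) := by
        ext ρ
        show ⁅c • x, (ρ : L)⁆ = c • ⁅x, (ρ : L)⁆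
        rw [smul_lie]
      rw [h1, map_smul, ihx (hst x hxr), smul_zero]
  exact key b hb hb'

end Pool.Agent.TH293.Sem
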